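import Pool.Agent.TH624.MPG

set_option autoImplicit false

namespace Pool.Agent.Results.MP_c29043_lc.MeanPayoffGames

open Pool.Agent.TH624.MPG

/-- **Orientation-compatible covers of bipartite digraphs decide mean payoff games.**  Let `G` be a mean
payoff game with `n` positions and integer payoffs of absolute value at most `C`, and put
`W = 4n((n+1)C+1) + 2`.  The digraph `G.Arc` with the weights `G.weight W` has `3n` nodes, is bipartite, has
neither loops nor opposite arcs, and its weights are even and at most `2W`.  In EVERY orientation-compatible
cover `x` of it, and for every position `v`, the maximizer secures mean payoff at least `0` from `v` if and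
only if `2 x(v, a) > W`, the minimizer secures a negative mean payoff if and only if `2 x(v, a) < W`, and
`2 x(v, a) ≠ W`. -/
theorem result {P : Type} [Fintype P] (G : Game P) (C : ℕ) (hC : ∀ p q, G.move p q → |G.c p q| ≤ C) :
    Fintype.card (P × Kind) = 3 * Fintype.card P ∧
    (∃ color : P × Kind → Bool, ∀ x y, G.Arc x y → color x ≠ color y) ∧
    (∀ x y, G.Arc x y → ¬ G.Arc y x ∧ Even (G.weight (level (Fintype.card P) C) x y) ∧
      G.weight (level (Fintype.card P) C) x y ≤ 2 * level (Fintype.card P) C) ∧
    ∀ x : P × Kind → ℕ, IsCompatibleCover G.Arc (G.weight (level (Fintype.card P) C)) x →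
      ∀ v : P,
        (level (Fintype.card P) C < 2 * x (v, Kind.a) ↔ G.MaxWins v) ∧
        (2 * x (v, Kind.a) < level (Fintype.card P) C ↔ G.MinWins v) ∧
        2 * x (v, Kind.a) ≠ level (Fintype.card P) C :=
  ⟨card_nodes, bipartite G,
    fun x y h => ⟨G.arc_asymm x y h, G.weight_even _ (level_even _ _) x y h, weight_le G C hC x y h⟩,
    fun x hx v => main_wins G C hC x hx v⟩

end Pool.Agent.Results.MP_c29043_lc.MeanPayoffGames
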